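import Mathlib

set_option autoImplicit false
open Finset Filter Topology

namespace Pool.Agent.Results.MP_ce3f89_co.GrowthExponent

/-- A family of graphs on the vertex set `Fin n` is balanced if `A \ A'` and `A' \ A` are
isomorphic (as graphs on the full vertex set) for all members `A`, `A'`. -/
def Balanced {n : ℕ} (F : Finset (SimpleGraph (Fin n))) : Prop :=
  ∀ A ∈ F, ∀ A' ∈ F, Nonempty ((A \ A') ≃g (A' \ A))

/-- The largest size of a balanced family of graphs on `n` labelled vertices. -/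
noncomputable def a (n : ℕ) : ℕ :=
  sSup {k | ∃ F : Finset (SimpleGraph (Fin n)), Balanced F ∧ F.card = k}

theorem a_bdd (n : ℕ) :
    BddAbove {k | ∃ F : Finset (SimpleGraph (Fin n)), Balanced F ∧ F.card = k} := by
  classical
  refine ⟨Fintype.card (SimpleGraph (Fin n)), ?_⟩
  rintro k ⟨F, _, rfl⟩
  exact Finset.card_le_univ F

/-- The graph attached to a set `S` of pairs below the antidiagonal. -/
def gr (n : ℕ) (S : Finset (Fin n × Fin n)) : SimpleGraph (Fin n) where
  Adj x y := x ≠ y ∧ ((x.val + y.val + 1 < n ∧ ((x, y) ∈ S ∨ (y, x) ∈ S)) ∨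
    (n < x.val + y.val + 1 ∧ ¬ ((x.rev, y.rev) ∈ S ∨ (y.rev, x.rev) ∈ S)))
  symm := ⟨fun x y h => ⟨h.1.symm, by
    rcases h.2 with h | h
    · left; exact ⟨by omega, h.2.symm⟩
    · right; exact ⟨by omega, fun h' => h.2 h'.symm⟩⟩⟩
  loopless := ⟨fun x h => h.1 rfl⟩

/-- pairs `x < y` with `x + y < n - 1` -/
def P (n : ℕ) : Finset (Fin n × Fin n) :=
  Finset.univ.filter (fun p => p.1 < p.2 ∧ p.1.val + p.2.val + 1 < n)

theorem gr_inj (n : ℕ) : Set.InjOn (gr n) ((P n).powerset : Set (Finset (Fin n × Fin n))) := by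
  have key : ∀ S T : Finset (Fin n × Fin n), S ⊆ P n → T ⊆ P n → gr n S = gr n T → S ⊆ T := by
    rintro S T hS hT h ⟨x, y⟩ hxy
    have h1 := hS hxy
    simp only [P, Finset.mem_filter, Finset.mem_univ, true_and] at h1
    have h2 : (gr n S).Adj x y := ⟨h1.1.ne, Or.inl ⟨h1.2, Or.inl hxy⟩⟩
    rw [h] at h2
    rcases h2.2 with h3 | h3
    · rcases h3.2 with h4 | h4
      · exact h4
      · have h5 := hT h4
        simp only [P, Finset.mem_filter, Finset.mem_univ, true_and] at h5
        exact absurd (h1.1.trans h5.1) (lt_irrefl _)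
    · exact absurd h3.1 (by omega)
  intro S hS T hT h
  rw [Finset.mem_coe, Finset.mem_powerset] at hS hT
  exact Finset.Subset.antisymm (key S T hS hT h) (key T S hT hS h.symm)

theorem gr_balanced (n : ℕ) (S T : Finset (Fin n × Fin n)) :
    Nonempty ((gr n S \ gr n T) ≃g (gr n T \ gr n S)) := by
  refine ⟨⟨Fin.revPerm, ?_⟩⟩
  intro x y
  have hx : x.rev.val = n - 1 - x.val := by rw [Fin.val_rev]; omega
  have hy : y.rev.val = n - 1 - y.val := by rw [Fin.val_rev]; omega
  have hx' := x.2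
  have hy' := y.2
  simp only [SimpleGraph.sdiff_adj, Fin.revPerm_apply, gr, Fin.rev_rev, ne_eq, Fin.rev_inj]
  rw [hx, hy]
  by_cases hxy : x = y
  · simp [hxy]
  · have e1 : n - 1 - x.val + (n - 1 - y.val) + 1 < n ↔ n < x.val + y.val + 1 := by omega
    have e2 : n < n - 1 - x.val + (n - 1 - y.val) + 1 ↔ x.val + y.val + 1 < n := by omega
    rw [e1, e2]
    by_cases h1 : x.val + y.val + 1 < n
    · have h2 : ¬ n < x.val + y.val + 1 := by omega
      simp only [hxy, h1, h2, not_false_eq_true, true_and, false_and, or_false, false_or]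
      tauto
    · by_cases h2 : n < x.val + y.val + 1
      · simp only [hxy, h1, h2, not_false_eq_true, true_and, false_and, or_false, false_or]
        tauto
      · simp only [h1, h2, false_and, or_self, and_false]

theorem P_card (n : ℕ) : (n - 1) ^ 2 / 4 ≤ (P n).card := by
  classical
  have h1 : (P n).card = ∑ x : Fin n, (n - 2 - 2 * x.val) := by
    unfold P
    rw [Finset.card_filter, Fintype.sum_prod_type]
    refine Finset.sum_congr rfl fun x _ => ?_
    rw [← Finset.card_filter]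
    have : (Finset.univ.filter (fun y : Fin n => x < y ∧ x.val + y.val + 1 < n)).card =
        (Finset.Ioo x.val (n - 1 - x.val)).card := by
      refine Finset.card_bij (fun y _ => y.val) ?_ ?_ ?_
      · intro y hy
        simp only [Finset.mem_filter, Finset.mem_univ, true_and, Fin.lt_def] at hy
        rw [Finset.mem_Ioo]
        omega
      · intro y _ z _ h
        exact Fin.ext h
      · intro b hb
        rw [Finset.mem_Ioo] at hb
        refine ⟨⟨b, by omega⟩, ?_, rfl⟩
        simp only [Finset.mem_filter, Finset.mem_univ, true_and, Fin.lt_def]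
        omega
    rw [this, Nat.card_Ioo]
    omega
  rw [h1, Fin.sum_univ_eq_sum_range (fun x => n - 2 - 2 * x) n]
  clear h1
  induction n using Nat.strong_induction_on with
  | _ n ih =>
    match n with
    | 0 => simp
    | 1 => simp
    | (n + 2) =>
      have h2 := ih n (by omega)
      rw [Finset.sum_range_succ']
      have h3 : ∑ k ∈ Finset.range (n + 1), (n + 2 - 2 - 2 * (k + 1)) =
          ∑ k ∈ Finset.range n, (n - 2 - 2 * k) := by
        rw [Finset.sum_range_succ]
        have h5 : n + 2 - 2 - 2 * (n + 1) = 0 := by omega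
        rw [h5, add_zero]
        refine Finset.sum_congr rfl fun k _ => by omega
      rw [h3]
      have h6 : (n + 2 - 1) ^ 2 / 4 = (n - 1) ^ 2 / 4 + n := by
        rcases Nat.eq_zero_or_pos n with rfl | hn
        · simp
        · obtain ⟨m, rfl⟩ : ∃ m, n = m + 1 := ⟨n - 1, by omega⟩
          have : (m + 1 + 2 - 1) ^ 2 = m ^ 2 + (m + 1) * 4 := by
            have : m + 1 + 2 - 1 = m + 2 := by omega
            rw [this]
            ring
          rw [this, Nat.add_mul_div_right _ _ (by norm_num)]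
          simp
      rw [h6]
      simp only [Nat.mul_zero, Nat.sub_zero, Nat.add_sub_cancel]
      omega

theorem lower (n : ℕ) : 2 ^ ((n - 1) ^ 2 / 4) ≤ a n := by
  classical
  have h1 : ((P n).powerset.image (gr n)).card = 2 ^ (P n).card := by
    rw [Finset.card_image_of_injOn (gr_inj n), Finset.card_powerset]
  have h2 : Balanced ((P n).powerset.image (gr n)) := by
    intro A hA A' hA'
    obtain ⟨S, _, rfl⟩ := Finset.mem_image.1 hA
    obtain ⟨T, _, rfl⟩ := Finset.mem_image.1 hA'
    exact gr_balanced n S T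
  calc 2 ^ ((n - 1) ^ 2 / 4) ≤ 2 ^ (P n).card := Nat.pow_le_pow_right (by norm_num) (P_card n)
    _ = ((P n).powerset.image (gr n)).card := h1.symm
    _ ≤ a n := le_csSup (a_bdd n) ⟨_, h2, rfl⟩

theorem upper_fam {n : ℕ} (F : Finset (SimpleGraph (Fin n))) (hF : Balanced F) :
    F.card ≤ 2 ^ (n.choose 2 / 2) * n.factorial := by
  classical
  rcases F.eq_empty_or_nonempty with rfl | ⟨A0, hA0⟩
  · simp
  have h1 : ∀ A : SimpleGraph (Fin n), ∃ φ : Equiv.Perm (Fin n), A ∈ F →
      ∀ x y, (A \ A0).Adj (φ x) (φ y) ↔ (A0 \ A).Adj x y := by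
    intro A
    by_cases hA : A ∈ F
    · obtain ⟨φ⟩ := hF A0 hA0 A hA
      exact ⟨φ.toEquiv, fun _ x y => φ.map_rel_iff⟩
    · exact ⟨1, fun h => absurd h hA⟩
  choose φ hφ using h1
  have hcardE : A0.edgeFinset.card + A0ᶜ.edgeFinset.card ≤ n.choose 2 := by
    have h1 : Disjoint A0.edgeFinset A0ᶜ.edgeFinset := by
      rw [SimpleGraph.disjoint_edgeFinset]
      exact disjoint_compl_right
    rw [← Finset.card_union_of_disjoint h1]
    have h2 : A0.edgeFinset ∪ A0ᶜ.edgeFinset ⊆ (⊤ : SimpleGraph (Fin n)).edgeFinset :=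
      Finset.union_subset (SimpleGraph.edgeFinset_mono le_top) (SimpleGraph.edgeFinset_mono le_top)
    refine (Finset.card_le_card h2).trans ?_
    rw [SimpleGraph.card_edgeFinset_top_eq_card_choose_two, Fintype.card_fin]
  by_cases hcase : A0.edgeFinset.card ≤ n.choose 2 / 2
  · -- use `A0 \ A`
    have h2 : F.card ≤ (A0.edgeFinset.powerset ×ˢ (Finset.univ : Finset (Equiv.Perm (Fin n)))).card := by
      refine Finset.card_le_card_of_injOn (fun A => ((A0 \ A).edgeFinset, φ A)) ?_ ?_
      · intro A hA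
        simp only [Finset.coe_product, Set.mem_prod, Finset.mem_coe, Finset.mem_powerset,
          Finset.mem_univ, and_true]
        exact SimpleGraph.edgeFinset_mono sdiff_le
      · intro A hA B hB h
        simp only [Prod.mk.injEq] at h
        have e1 : A0 \ A = A0 \ B := SimpleGraph.edgeFinset_inj.1 h.1
        have e2 : A \ A0 = B \ A0 := by
          ext x y
          have h3 := hφ A hA ((φ A).symm x) ((φ A).symm y)
          have h4 := hφ B hB ((φ A).symm x) ((φ A).symm y)
          rw [← h.2] at h4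
          simp only [Equiv.apply_symm_apply] at h3 h4
          rw [h3, h4, e1]
        ext x y
        have f1 : (A0 \ A).Adj x y ↔ (A0 \ B).Adj x y := by rw [e1]
        have f2 : (A \ A0).Adj x y ↔ (B \ A0).Adj x y := by rw [e2]
        rw [SimpleGraph.sdiff_adj, SimpleGraph.sdiff_adj] at f1 f2
        tauto
    rw [Finset.card_product, Finset.card_powerset, Finset.card_univ, Fintype.card_perm,
      Fintype.card_fin] at h2
    exact h2.trans (Nat.mul_le_mul_right _ (Nat.pow_le_pow_right (by norm_num) hcase))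
  · have hcase' : A0ᶜ.edgeFinset.card ≤ n.choose 2 / 2 := by omega
    have h2 : F.card ≤ (A0ᶜ.edgeFinset.powerset ×ˢ (Finset.univ : Finset (Equiv.Perm (Fin n)))).card := by
      refine Finset.card_le_card_of_injOn (fun A => ((A \ A0).edgeFinset, φ A)) ?_ ?_
      · intro A hA
        simp only [Finset.coe_product, Set.mem_prod, Finset.mem_coe, Finset.mem_powerset,
          Finset.mem_univ, and_true]
        refine SimpleGraph.edgeFinset_mono ?_
        intro x y hxy
        rw [SimpleGraph.compl_adj]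
        exact ⟨hxy.1.ne, hxy.2⟩
      · intro A hA B hB h
        simp only [Prod.mk.injEq] at h
        have e1 : A \ A0 = B \ A0 := SimpleGraph.edgeFinset_inj.1 h.1
        have e2 : A0 \ A = A0 \ B := by
          ext x y
          rw [← hφ A hA x y, ← hφ B hB x y, h.2, e1]
        ext x y
        have f1 : (A0 \ A).Adj x y ↔ (A0 \ B).Adj x y := by rw [e2]
        have f2 : (A \ A0).Adj x y ↔ (B \ A0).Adj x y := by rw [e1]
        rw [SimpleGraph.sdiff_adj, SimpleGraph.sdiff_adj] at f1 f2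
        tauto
    rw [Finset.card_product, Finset.card_powerset, Finset.card_univ, Fintype.card_perm,
      Fintype.card_fin] at h2
    exact h2.trans (Nat.mul_le_mul_right _ (Nat.pow_le_pow_right (by norm_num) hcase'))

theorem upper (n : ℕ) : a n ≤ 2 ^ (n.choose 2 / 2) * n.factorial := by
  refine csSup_le ⟨0, ∅, by intro A hA; simp at hA, rfl⟩ ?_
  rintro k ⟨F, hF, rfl⟩
  exact upper_fam F hF

theorem limit : Tendsto (fun n : ℕ => Real.logb 2 (a n : ℝ) / (n : ℝ) ^ 2) atTop
    (𝓝 (1 / 4)) := by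
  have hlogn : Tendsto (fun n : ℕ => Real.logb 2 (n : ℝ) / (n : ℝ)) atTop (𝓝 0) := by
    have h1 : Tendsto (fun x : ℝ => Real.log x / x) atTop (𝓝 0) := by
      have := Real.isLittleO_log_id_atTop.tendsto_div_nhds_zero
      simpa using this
    have h2 := (h1.comp tendsto_natCast_atTop_atTop).div_const (Real.log 2)
    rw [zero_div] at h2
    refine h2.congr fun n => ?_
    simp only [Function.comp, Real.logb]
    ring
  have hinv : Tendsto (fun n : ℕ => 1 / (n : ℝ)) atTop (𝓝 0) := tendsto_one_div_atTop_nhds_zero_nat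
  have hlow : Tendsto (fun n : ℕ => 1 / 4 - (1 / (n : ℝ)) - (1 / (n : ℝ)) * (1 / (n : ℝ)))
      atTop (𝓝 (1 / 4)) := by
    have := (tendsto_const_nhds (x := (1 / 4 : ℝ))).sub hinv |>.sub (hinv.mul hinv)
    simpa using this
  have hup : Tendsto (fun n : ℕ => 1 / 4 + Real.logb 2 (n : ℝ) / (n : ℝ)) atTop (𝓝 (1 / 4)) := by
    have := (tendsto_const_nhds (x := (1 / 4 : ℝ))).add hlogn
    simpa using this
  refine tendsto_of_tendsto_of_tendsto_of_le_of_le' hlow hup ?_ ?_
  · filter_upwards [eventually_ge_atTop 1] with n hn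
    have hnr : (1 : ℝ) ≤ n := by exact_mod_cast hn
    have h1 : (2 : ℝ) ^ ((n - 1) ^ 2 / 4) ≤ (a n : ℝ) := by exact_mod_cast lower n
    have h2 : (((n - 1) ^ 2 / 4 : ℕ) : ℝ) ≤ Real.logb 2 (a n : ℝ) := by
      rw [Real.le_logb_iff_rpow_le (by norm_num) (lt_of_lt_of_le (by positivity) h1),
        Real.rpow_natCast]
      exact h1
    have h3 : ((n : ℝ) - 1) ^ 2 / 4 - 1 ≤ (((n - 1) ^ 2 / 4 : ℕ) : ℝ) := by
      have h4 : (n - 1) ^ 2 ≤ 4 * ((n - 1) ^ 2 / 4) + 3 := by omega
      have h5 : (((n - 1) ^ 2 : ℕ) : ℝ) ≤ 4 * (((n - 1) ^ 2 / 4 : ℕ) : ℝ) + 3 := by exact_mod_cast h4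
      rw [Nat.cast_pow, Nat.cast_sub hn] at h5
      push_cast at h5
      linarith
    rw [le_div_iff₀ (by positivity)]
    have h6 : (1 / 4 - (1 / (n : ℝ)) - (1 / (n : ℝ)) * (1 / (n : ℝ))) * (n : ℝ) ^ 2 =
        (n : ℝ) ^ 2 / 4 - n - 1 := by
      field_simp
    rw [h6]
    nlinarith
  · filter_upwards [eventually_ge_atTop 1] with n hn
    have hnr : (1 : ℝ) ≤ n := by exact_mod_cast hn
    have h1 : (2 : ℝ) ^ ((n - 1) ^ 2 / 4) ≤ (a n : ℝ) := by exact_mod_cast lower n
    have h1' : (0 : ℝ) < a n := lt_of_lt_of_le (by positivity) h1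
    have h2 : (a n : ℝ) ≤ (2 : ℝ) ^ (n.choose 2 / 2 : ℕ) * (n.factorial : ℝ) := by
      exact_mod_cast upper n
    have h3 : Real.logb 2 (a n : ℝ) ≤ (n.choose 2 / 2 : ℕ) + n * Real.logb 2 n := by
      calc Real.logb 2 (a n : ℝ) ≤ Real.logb 2 ((2 : ℝ) ^ (n.choose 2 / 2 : ℕ) * (n.factorial : ℝ)) :=
            Real.logb_le_logb_of_le (by norm_num) h1' h2
        _ = (n.choose 2 / 2 : ℕ) + Real.logb 2 (n.factorial : ℝ) := by
            rw [Real.logb_mul (by positivity) (by positivity), Real.logb_pow,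
              Real.logb_self_eq_one (by norm_num), mul_one]
        _ ≤ (n.choose 2 / 2 : ℕ) + n * Real.logb 2 n := by
            have h4 : (n.factorial : ℝ) ≤ (n : ℝ) ^ n := by exact_mod_cast Nat.factorial_le_pow n
            have h5 := Real.logb_le_logb_of_le (b := 2) (by norm_num)
              (by positivity) h4
            rw [Real.logb_pow] at h5
            linarith
    have h6 : ((n.choose 2 / 2 : ℕ) : ℝ) ≤ (n : ℝ) ^ 2 / 4 := by
      have h7 : 2 * (n.choose 2 / 2) ≤ n.choose 2 := by omega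
      have h8 : 2 * n.choose 2 ≤ n * n := by
        rw [Nat.choose_two_right]
        have := Nat.div_mul_le_self (n * (n - 1)) 2
        have h9 : n * (n - 1) ≤ n * n := Nat.mul_le_mul_left _ (Nat.sub_le _ _)
        omega
      have h10 : 4 * (n.choose 2 / 2) ≤ n * n := by omega
      have h11 : (4 : ℝ) * ((n.choose 2 / 2 : ℕ) : ℝ) ≤ (n : ℝ) * n := by exact_mod_cast h10
      nlinarith
    rw [div_le_iff₀ (by positivity)]
    have h12 : (1 / 4 + Real.logb 2 (n : ℝ) / (n : ℝ)) * (n : ℝ) ^ 2 =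
        (n : ℝ) ^ 2 / 4 + n * Real.logb 2 n := by
      field_simp
    rw [h12]
    linarith

/-- `2^⌊(n-1)²/4⌋ ≤ a(n) ≤ 2^⌊C(n,2)/2⌋ n!` for every `n`, and therefore
`log₂ a(n) = n²/4 + O(n log n)`; in particular `log₂ a(n) / n² → 1/4`. -/
theorem result :
    (∀ n : ℕ, 2 ^ ((n - 1) ^ 2 / 4) ≤ a n ∧ a n ≤ 2 ^ (n.choose 2 / 2) * n.factorial) ∧
    Tendsto (fun n : ℕ => Real.logb 2 (a n : ℝ) / (n : ℝ) ^ 2) atTop (𝓝 (1 / 4)) :=
  ⟨fun n => ⟨lower n, upper n⟩, limit⟩

end Pool.Agent.Results.MP_ce3f89_co.GrowthExponent
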